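import Pool.Agent.Run7.h207.GC.Iface

/-!
# Pieces BASE, GEN, DET of the project GC (helper207): the graph complement conjecture for almost
all graphs
-/

set_option autoImplicit false

namespace Pool.Agent.Run7.h194.GC

open Finset Matrix
open Pool.Agent.Run7.h207.GC

theorem t_BASE : J_BASE := by
  classical
  intro V H d D hD l hl hlD S hS hSd
  -- an injection of `D` into `Fin d`
  obtain ⟨e⟩ : Nonempty ({x // x ∈ D} ↪ Fin d) := by
    apply Function.Embedding.nonempty_of_card_le
    rw [Fintype.card_coe, Fintype.card_fin]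
    exact hD
  set w : V → Fin d → ℝ := fun i => if h : i ∈ D then Pi.single (e ⟨i, h⟩) 1 else 0 with hw
  have hwD : ∀ i (h : i ∈ D), w i = Pi.single (e ⟨i, h⟩) 1 := by
    intro i h
    rw [hw]
    simp only [dif_pos h]
  have hLI : ∀ T : Finset V, (∀ i ∈ T, i ∈ D) → LI w T := by
    intro T hT
    unfold LI LinearIndepOn
    have h1 : (fun x : (T : Set V) => w x) =
        (fun k : Fin d => (Pi.single k (1 : ℝ) : Fin d → ℝ)) ∘
          (fun x : (T : Set V) => e ⟨x.1, hT x.1 x.2⟩) := by
      funext x
      simp only [Function.comp]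
      rw [hwD x.1 (hT x.1 x.2)]
    rw [h1]
    apply LinearIndependent.comp
    · have := (Pi.basisFun ℝ (Fin d)).linearIndependent
      have h2 : (fun k : Fin d => (Pi.single k (1 : ℝ) : Fin d → ℝ)) = ⇑(Pi.basisFun ℝ (Fin d)) := by
        funext k
        rw [Pi.basisFun_apply]
      rw [h2]
      exact this
    · intro x y hxy
      have := e.injective hxy
      simp only [Subtype.mk.injEq] at this
      exact Subtype.ext this
  have hLIC : ∀ l' : List V, (∀ i ∈ l', i ∈ D) → LIC H w l' := by
    intro l'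
    induction l' with
    | nil => intro _; trivial
    | cons a t ih =>
      intro h
      refine ⟨ih fun i hi => h i (List.mem_cons_of_mem _ hi), hLI _ fun i hi => ?_⟩
      rw [mem_nbl] at hi
      exact h i (List.mem_cons_of_mem _ hi.1)
  refine ⟨w, ⟨?_, hLIC l hlD⟩, hLI S fun i hi => hlD i (hS i hi)⟩
  intro i hi j hj hij
  have hne : i ≠ j := hij.ne
  rw [hwD i (hlD i hi), hwD j (hlD j hj), single_dotProduct, one_mul, Pi.single_apply, if_neg]
  intro h
  apply hne
  have := e.injective h
  simpa using this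

theorem t_GEN : J_STEP → J_GEN := by
  classical
  intro hS V H d D hdeg hHG
  have hsub : ∀ (l : List V), (∀ i ∈ l, i ∈ D) → ∀ i, (nbl H l i).card ≤ (nbr H D i).card := by
    intro l hl i
    apply card_le_card
    intro j hj
    rw [mem_nbl] at hj
    rw [mem_nbr]
    exact ⟨hl j hj.1, hj.2⟩
  have hAdm : ∀ l : List V, l.Nodup → (∀ i ∈ l, i ∈ D) → Adm H d l := by
    intro l
    induction l with
    | nil => intro _ _; trivial
    | cons a t ih =>
      intro hn h
      rw [List.nodup_cons] at hn
      have ht : ∀ i ∈ t, i ∈ D := fun i hi => h i (List.mem_cons_of_mem _ hi)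
      refine ⟨hn.1, ?_, ih hn.2 ht⟩
      have h1 := hsub t ht a
      have h2 := hdeg a (h a List.mem_cons_self)
      omega
  have hHQ : HQ H d D := fun x _ y _ i hi _ _ => Or.inl (hdeg i hi)
  intro l hl hlD S hSl hSd
  exact hS V H d D hHG hHQ l (hAdm l hl hlD) hlD S hSl hSd fun i hi => Or.inl (hdeg i (hlD i hi))

theorem nbr_le {V : Type} (H : SimpleGraph V) [Fintype V] (U : Finset V) (i : V) (P : V → Prop)
    (h : ∀ u ∈ U, P u) : (nbr H U i).card ≤ dgP H univ i P := by
  classical
  unfold dgP
  apply card_le_card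
  intro j hj
  rw [mem_nbr] at hj
  rw [mem_filter]
  exact ⟨mem_univ _, hj.2, h j hj.1⟩

theorem t_DET : J_GEN → J_BASE → J_FTH → J_SAP → J_DET := by
  classical
  intro hGen hBase hFth hSap n d H hn h1 h2 h3
  have : NeZero n := ⟨by omega⟩
  have hd : 1 ≤ d := by
    have h01 : (⟨1, by omega⟩ : Fin n) ≠ ⟨0, by omega⟩ := by
      intro h
      have := congrArg Fin.val h
      simp at this
    rcases h1 ⟨0, by omega⟩ ⟨0, by omega⟩ ⟨1, by omega⟩ h01 h01 with h | h <;> omega
  have hHQ : HQ H d univ := fun x _ y _ i _ hx hy => h1 x y i hx hy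
  have hHG : HG H d univ := by
    intro x _ y _ hxy U hU
    have hUxy : ∀ u ∈ U, H.Adj x u ∨ H.Adj y u := fun u hu => (hU u hu).2.2.2
    have hUx : ∀ u ∈ U, u ≠ x := fun u hu => (hU u hu).2.1
    have hUy : ∀ u ∈ U, u ≠ y := fun u hu => (hU u hu).2.2.1
    apply hGen
    · intro i hi
      have a1 := nbr_le H U i _ hUxy
      have a2 := h2 x y i (hUx i hi) (hUy i hi) hxy.ne
      omega
    · intro x' hx' y' hy' hxy' U' hU'
      have hU'U : ∀ u ∈ U', u ∈ U := fun u hu => (hU' u hu).1
      apply hGen
      · intro i hi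
        have a1 := nbr_le H U' i _ (fun u hu => hUxy u (hU'U u hu))
        have a2 := h2 x y i (hUx i (hU'U i hi)) (hUy i (hU'U i hi)) hxy.ne
        omega
      · intro x'' hx'' y'' hy'' hxy'' U'' hU''
        apply hBase
        set c : Fin 6 → Fin n := ![x, y, x', y', x'', y''] with hc
        have hx''U := hU'U x'' hx''
        have hy''U := hU'U y'' hy''
        have n1 : x ≠ y := hxy.ne
        have n2 : x' ≠ x := hUx x' hx'
        have n3 : x' ≠ y := hUy x' hx'
        have n4 : y' ≠ x := hUx y' hy'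
        have n5 : y' ≠ y := hUy y' hy'
        have n6 : x'' ≠ x := hUx x'' hx''U
        have n7 : x'' ≠ y := hUy x'' hx''U
        have n8 : y'' ≠ x := hUx y'' hy''U
        have n9 : y'' ≠ y := hUy y'' hy''U
        have n10 : x' ≠ y' := hxy'.ne
        have n11 : x'' ≠ x' := (hU' x'' hx'').2.1
        have n12 : x'' ≠ y' := (hU' x'' hx'').2.2.1
        have n13 : y'' ≠ x' := (hU' y'' hy'').2.1
        have n14 : y'' ≠ y' := (hU' y'' hy'').2.2.1
        have n15 : x'' ≠ y'' := hxy''.ne
        have hinj : Function.Injective c := by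
          have hnd : (List.ofFn c).Nodup := by
            rw [hc]
            simp only [List.ofFn_succ, Matrix.cons_val_zero, Matrix.cons_val_succ, List.ofFn_zero,
              List.nodup_cons, List.mem_cons, List.not_mem_nil, or_false, not_or,
              List.nodup_nil, and_true, not_false_eq_true]
            exact ⟨⟨n1, n2.symm, n4.symm, n6.symm, n8.symm⟩, ⟨n3.symm, n5.symm, n7.symm, n9.symm⟩,
              ⟨n10, n11.symm, n13.symm⟩, ⟨n12.symm, n14.symm⟩, n15⟩
          exact List.nodup_ofFn.1 hnd
        have a3 := h3 c hinj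
        have a4 : U''.card ≤ (univ.filter fun j => (H.Adj (c 0) j ∨ H.Adj (c 1) j) ∧
            (H.Adj (c 2) j ∨ H.Adj (c 3) j) ∧ (H.Adj (c 4) j ∨ H.Adj (c 5) j)).card := by
          apply card_le_card
          intro u hu
          rw [mem_filter]
          have b1 := hU'' u hu
          have b2 := hU' u b1.1
          have b3 := hUxy u b2.1
          exact ⟨mem_univ _, b3, b2.2.2.2, b1.2.2.2⟩
        omega
  obtain ⟨l, w, hl, hli, hreg, hne⟩ := hFth (Fin n) H d hd (by rw [Fintype.card_fin]; exact hn)
    hHG hHQ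
  exact hSap (Fin n) H d l w hl hli hreg hne

end Pool.Agent.Run7.h194.GC
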